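import Pool.Agent.R730.RP.Stm

/-!
# RP-VECA (helper657 for helper730): vectors from words and a Frobenius model
-/

set_option autoImplicit false

namespace Pool.Agent.R730.RP

open Finset
open scoped Classical

theorem VEC_ok : S_IP → S_WORD → S_TL → S_CNT → S_VEC := by
  intro hIP hW hTL hC k q hq
  obtain ⟨M, hM⟩ := hTL q hq
  refine ⟨Fin k → Bool × Bool, inferInstance,
    fun s => if h : NC s then fun c => eval M (hW k s h).choose (List.ofFn c) else 0, ?_⟩
  intro s s' hs hs'
  simp only [dif_pos hs, dif_pos hs']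
  obtain ⟨N, hN⟩ := hIP k (hW k s hs).choose (hW k s' hs').choose
  rw [hN (Bool × Bool) M, hM]
  congr 1
  have h1 := hN Bool (potts Bool)
  have h2 := hC k Bool s s'
  have h3 := (Finset.sum_congr rfl (fun c _ => congrArg₂ (· * ·)
    ((hW k s hs).choose_spec Bool c) ((hW k s' hs').choose_spec Bool c)) :
      ∑ c : Fin k → Bool, eval (potts Bool) (hW k s hs).choose (List.ofFn c) *
      eval (potts Bool) (hW k s' hs').choose (List.ofFn c) = _).trans h2
  rw [h3] at h1
  have h4 : (potts Bool).q = 2 := by simp [potts]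
  rw [h4] at h1
  have h5 : (Fintype.card Bool : ℝ) = 2 := by simp
  rw [h5] at h1
  exact (pow_right_injective₀ (by norm_num : (0 : ℝ) < 2) (by norm_num) h1).symm

end Pool.Agent.R730.RP
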